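import Pool.Agent.W246.LG.Defs

set_option autoImplicit false

namespace Pool.Agent.W605.LGChi

open Finset

/-- the character -/
noncomputable def e (x : ℝ) : ℂ := Complex.exp (Complex.I * ((2 * Real.pi * x : ℝ) : ℂ))

lemma e_eq (j : ℤ) (t : ℝ) : Complex.exp (2 * Real.pi * Complex.I * j * t) = e (j * t) := by
  unfold e
  congr 1
  push_cast
  ring

lemma e_add (x y : ℝ) : e (x + y) = e x * e y := by
  unfold e
  rw [← Complex.exp_add]
  congr 1
  push_cast
  ring

lemma e_zero : e 0 = 1 := by unfold e; simp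

lemma norm_e (x : ℝ) : ‖e x‖ = 1 := by
  unfold e
  rw [Complex.norm_exp_I_mul_ofReal]

lemma e_pow (x : ℝ) (k : ℕ) : e x ^ k = e (k * x) := by
  unfold e
  rw [← Complex.exp_nat_mul]
  congr 1
  push_cast
  ring

lemma e_int (j : ℤ) : e j = 1 := by
  unfold e
  rw [Complex.exp_eq_one_iff]
  exact ⟨j, by push_cast; ring⟩

lemma e_conj (x : ℝ) : (starRingEnd ℂ) (e x) = e (-x) := by
  unfold e
  rw [← Complex.exp_conj, map_mul, Complex.conj_ofReal, Complex.conj_I]
  congr 1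
  push_cast
  ring

lemma e_re (x : ℝ) : (e x).re = Real.cos (2 * Real.pi * x) := by
  unfold e
  rw [mul_comm, Complex.exp_ofReal_mul_I_re]

lemma e_sub_one (x : ℝ) : ‖e x - 1‖ = 2 * |Real.sin (Real.pi * x)| := by
  unfold e
  rw [Complex.norm_exp_I_mul_ofReal_sub_one, Real.norm_eq_abs, abs_mul, abs_of_pos (by norm_num)]
  congr 3
  ring

/-- trigonometric polynomials with real even coefficients -/
def TP (h : ℕ) (g : ℝ → ℝ) : Prop := ∃ b : ℤ → ℝ, (∀ j, b (-j) = b j) ∧
  ∀ t : ℝ, (g t : ℂ) = ∑ j ∈ Icc (-(h : ℤ)) (h : ℤ), (b j : ℂ) * e (j * t)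

lemma TP_const (h : ℕ) (c : ℝ) : TP h (fun _ => c) := by
  refine ⟨fun j => if j = 0 then c else 0, ?_, ?_⟩
  · intro j; simp
  · intro t
    rw [Finset.sum_eq_single 0]
    · simp [e_zero]
    · intro j _ hj; simp [hj]
    · intro h0; exact absurd (Finset.mem_Icc.2 ⟨by omega, by omega⟩) h0

lemma TP_add {h : ℕ} {f g : ℝ → ℝ} (hf : TP h f) (hg : TP h g) : TP h (fun t => f t + g t) := by
  obtain ⟨b, hb1, hb2⟩ := hf
  obtain ⟨c, hc1, hc2⟩ := hg
  refine ⟨fun j => b j + c j, ?_, ?_⟩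
  · intro j; simp [hb1, hc1]
  · intro t
    push_cast
    rw [hb2, hc2, ← Finset.sum_add_distrib]
    apply Finset.sum_congr rfl
    intro j _; ring

lemma TP_smul {h : ℕ} {f : ℝ → ℝ} (c : ℝ) (hf : TP h f) : TP h (fun t => c * f t) := by
  obtain ⟨b, hb1, hb2⟩ := hf
  refine ⟨fun j => c * b j, ?_, ?_⟩
  · intro j; simp [hb1]
  · intro t
    push_cast
    rw [hb2, Finset.mul_sum]
    apply Finset.sum_congr rfl
    intro j _; ring

lemma TP_mul {h1 h2 : ℕ} {f g : ℝ → ℝ} (hf : TP h1 f) (hg : TP h2 g) :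
    TP (h1 + h2) (fun t => f t * g t) := by
  obtain ⟨b, hb1, hb2⟩ := hf
  obtain ⟨c, hc1, hc2⟩ := hg
  let c' : ℤ → ℝ := fun j => if j ∈ Icc (-(h2 : ℤ)) (h2 : ℤ) then c j else 0
  have hc'e : ∀ j, c' (-j) = c' j := by
    intro j
    simp only [c']
    by_cases h : j ∈ Icc (-(h2 : ℤ)) (h2 : ℤ)
    · rw [if_pos h, if_pos, hc1]
      rw [Finset.mem_Icc] at h ⊢; omega
    · rw [if_neg h, if_neg]
      rw [Finset.mem_Icc] at h ⊢; omega
  refine ⟨fun k => ∑ i ∈ Icc (-(h1 : ℤ)) (h1 : ℤ), b i * c' (k - i), ?_, ?_⟩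
  · intro k
    beta_reduce
    apply Finset.sum_nbij' (fun i => -i) (fun i => -i)
    · intro i hi; rw [Finset.mem_Icc] at hi ⊢; omega
    · intro i hi; rw [Finset.mem_Icc] at hi ⊢; omega
    · intro i _; simp
    · intro i _; simp
    · intro i _
      rw [hb1, ← hc'e (k - -i)]
      congr 2
      ring
  · intro t
    push_cast
    rw [hb2, Finset.sum_mul]
    simp_rw [Finset.sum_mul]
    rw [Finset.sum_comm]
    apply Finset.sum_congr rfl
    intro i hi
    rw [Finset.mem_Icc] at hi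
    rw [hc2, Finset.mul_sum]
    have h1 : ∑ j ∈ Icc (-(h2 : ℤ)) (h2 : ℤ), (b i : ℂ) * e (i * t) * ((c j : ℂ) * e (j * t)) =
        ∑ j ∈ Icc (-(h2 : ℤ)) (h2 : ℤ), (b i : ℂ) * e (i * t) * ((c' j : ℂ) * e (j * t)) := by
      apply Finset.sum_congr rfl
      intro j hj
      simp only [c']
      rw [if_pos hj]
    rw [h1]
    have h2' : ∑ j ∈ Icc (-(h2 : ℤ)) (h2 : ℤ), (b i : ℂ) * e (i * t) * ((c' j : ℂ) * e (j * t)) =
        ∑ k ∈ Icc (-(h2 : ℤ) + i) ((h2 : ℤ) + i), (b i : ℂ) * (c' (k - i) : ℂ) * e (k * t) := by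
      apply Finset.sum_nbij' (fun j => j + i) (fun k => k - i)
      · intro j hj; rw [Finset.mem_Icc] at hj ⊢; omega
      · intro j hj; rw [Finset.mem_Icc] at hj ⊢; omega
      · intro j _; simp
      · intro j _; simp
      · intro j _
        have : ((j + i : ℤ) : ℝ) * t = i * t + j * t := by push_cast; ring
        rw [this, e_add, add_sub_cancel_right]
        ring
    rw [h2']
    apply Finset.sum_subset
    · intro k hk
      rw [Finset.mem_Icc] at hk ⊢
      omega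
    · intro k _ hk
      have : c' (k - i) = 0 := by
        simp only [c']
        rw [if_neg]
        rw [Finset.mem_Icc] at hk ⊢; omega
      rw [this]; simp

/-- Dirichlet kernel -/
noncomputable def Dk (n : ℕ) (t : ℝ) : ℂ := ∑ j ∈ range n, e (j * t)

/-- Fejer kernel -/
noncomputable def Fk (n : ℕ) (t : ℝ) : ℝ := ‖Dk n t‖ ^ 2 / n ^ 2

lemma TP_F (n : ℕ) : TP n (Fk n) := by
  refine ⟨fun j => (((range n ×ˢ range n).filter
    (fun i => (i.1 : ℤ) - i.2 = j)).card : ℝ) / n ^ 2, ?_, ?_⟩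
  · intro j
    beta_reduce
    congr 2
    apply Finset.card_nbij' (fun i => (i.2, i.1)) (fun i => (i.2, i.1))
    · intro i hi
      simp only [Finset.coe_filter, Finset.mem_product, Set.mem_ofPred_eq] at hi ⊢
      exact ⟨⟨hi.1.2, hi.1.1⟩, by omega⟩
    · intro i hi
      simp only [Finset.coe_filter, Finset.mem_product, Set.mem_ofPred_eq] at hi ⊢
      exact ⟨⟨hi.1.2, hi.1.1⟩, by omega⟩
    · intro i _; rfl
    · intro i _; rfl
  · intro t
    have h1 : ((‖Dk n t‖ ^ 2 : ℝ) : ℂ) = ∑ i ∈ range n ×ˢ range n,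
        e (((i.1 : ℤ) - (i.2 : ℤ) : ℤ) * t) := by
      have : ((‖Dk n t‖ ^ 2 : ℝ) : ℂ) = Dk n t * (starRingEnd ℂ) (Dk n t) := by
        rw [Complex.mul_conj, Complex.normSq_eq_norm_sq]
      rw [this]
      unfold Dk
      rw [map_sum, Finset.sum_mul_sum, Finset.sum_product]
      apply Finset.sum_congr rfl
      intro i _
      apply Finset.sum_congr rfl
      intro j _
      rw [e_conj, ← e_add]
      congr 1
      push_cast
      ring
    have h2 : ∑ i ∈ range n ×ˢ range n, e (((i.1 : ℤ) - (i.2 : ℤ) : ℤ) * t) =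
        ∑ j ∈ Icc (-(n : ℤ)) (n : ℤ), ∑ i ∈ (range n ×ˢ range n).filter
          (fun i => (i.1 : ℤ) - i.2 = j), e (((i.1 : ℤ) - (i.2 : ℤ) : ℤ) * t) := by
      rw [Finset.sum_fiberwise_of_maps_to]
      intro i hi
      rw [Finset.mem_product, Finset.mem_range, Finset.mem_range] at hi
      rw [Finset.mem_Icc]
      omega
    unfold Fk
    rw [Complex.ofReal_div, h1, h2, Finset.sum_div]
    apply Finset.sum_congr rfl
    intro j _
    have h3 : ∀ i ∈ (range n ×ˢ range n).filter (fun i => (i.1 : ℤ) - i.2 = j),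
        e (((i.1 : ℤ) - (i.2 : ℤ) : ℤ) * t) = e (j * t) := by
      intro i hi
      rw [(Finset.mem_filter.1 hi).2]
    rw [Finset.sum_congr rfl h3, Finset.sum_const, nsmul_eq_mul]
    push_cast
    ring

/-- the test function -/
noncomputable def chi (m n : ℕ) (t : ℝ) : ℝ := 1 - (1 - Fk n t) ^ m

lemma TP_chi (m n : ℕ) : TP (m * n) (chi m n) := by
  have h1 : ∀ m : ℕ, TP (m * n) (fun t => (1 - Fk n t) ^ m) := by
    intro m
    induction m with
    | zero => simpa using TP_const 0 1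
    | succ k ih =>
      have h2 : TP n (fun t => 1 - Fk n t) := by
        have := TP_add (TP_const n 1) (TP_smul (-1) (TP_F n))
        convert this using 2
        ring
      have h3 := TP_mul ih h2
      have e1 : (k + 1) * n = k * n + n := by ring
      rw [e1]
      convert h3 using 2
      rw [pow_succ]
  have := TP_add (TP_const (m * n) 1) (TP_smul (-1) (h1 m))
  convert this using 2
  unfold chi
  ring

lemma Dk_le (n : ℕ) (t : ℝ) : ‖Dk n t‖ ≤ n := by
  unfold Dk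
  calc ‖∑ j ∈ range n, e (j * t)‖ ≤ ∑ j ∈ range n, ‖e (j * t)‖ := norm_sum_le _ _
    _ = n := by simp [norm_e]

lemma Fk_bounds (n : ℕ) (hn : 1 ≤ n) (t : ℝ) : 0 ≤ Fk n t ∧ Fk n t ≤ 1 := by
  have hn' : (0 : ℝ) < n := by exact_mod_cast hn
  unfold Fk
  constructor
  · positivity
  · rw [div_le_one (by positivity)]
    exact pow_le_pow_left₀ (norm_nonneg _) (Dk_le n t) 2

lemma chi_bounds (m n : ℕ) (hn : 1 ≤ n) (t : ℝ) : 0 ≤ chi m n t ∧ chi m n t ≤ 1 := by
  obtain ⟨h0, h1⟩ := Fk_bounds n hn t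
  have h2 : 0 ≤ (1 - Fk n t) ^ m := pow_nonneg (by linarith) m
  have h3 : (1 - Fk n t) ^ m ≤ 1 := pow_le_one₀ (by linarith) (by linarith)
  unfold chi
  constructor <;> linarith

lemma chi_per (m n : ℕ) (t : ℝ) : chi m n (t + 1) = chi m n t := by
  unfold chi Fk Dk
  have : ∀ j : ℕ, e (j * (t + 1)) = e (j * t) := by
    intro j
    rw [mul_add, mul_one, e_add]
    have := e_int j
    rw [Int.cast_natCast] at this
    rw [this, mul_one]
  simp_rw [this]

lemma Dk_small (n : ℕ) (t : ℝ) (ht0 : t ≠ 0) (ht : |t| ≤ 1 / 2) : ‖Dk n t‖ * (2 * |t|) ≤ 1 := by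
  have h1 : Dk n t * (e t - 1) = e (n * t) - 1 := by
    unfold Dk
    have : ∀ j ∈ range n, e (j * t) = e t ^ j := by
      intro j _; rw [e_pow]
    rw [Finset.sum_congr rfl this, geom_sum_mul, e_pow]
  have h2 : ‖Dk n t‖ * ‖e t - 1‖ ≤ 2 := by
    rw [← norm_mul, h1]
    calc ‖e (n * t) - 1‖ ≤ ‖e (n * t)‖ + ‖(1 : ℂ)‖ := norm_sub_le _ _
      _ = 2 := by rw [norm_e]; norm_num
  have h3 : 2 * |t| ≤ |Real.sin (Real.pi * t)| := by
    have h4 : |Real.sin (Real.pi * t)| = Real.sin (Real.pi * |t|) := by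
      have hs : 0 ≤ Real.sin (Real.pi * |t|) := by
        apply Real.sin_nonneg_of_nonneg_of_le_pi (by positivity)
        nlinarith [Real.pi_pos]
      rcases abs_cases t with ⟨h, _⟩ | ⟨h, _⟩
      · rw [h] at hs ⊢; exact abs_of_nonneg hs
      · rw [h] at hs ⊢
        rw [mul_neg, Real.sin_neg] at hs ⊢
        exact abs_of_nonpos (by linarith)
    rw [h4]
    have := Real.mul_le_sin (x := Real.pi * |t|) (by positivity) (by nlinarith [Real.pi_pos])
    have h5 : 2 / Real.pi * (Real.pi * |t|) = 2 * |t| := by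
      field_simp
    linarith
  rw [e_sub_one] at h2
  have h6 : ‖Dk n t‖ * (2 * |t|) ≤ ‖Dk n t‖ * |Real.sin (Real.pi * t)| :=
    mul_le_mul_of_nonneg_left h3 (norm_nonneg _)
  linarith

lemma chi_small (m n : ℕ) (hn : 1 ≤ n) (t : ℝ) (ht0 : t ≠ 0) (ht : |t| ≤ 1 / 2) :
    chi m n t ≤ m / (4 * n ^ 2 * t ^ 2) := by
  have hn' : (0 : ℝ) < n := by exact_mod_cast hn
  obtain ⟨h0, h1⟩ := Fk_bounds n hn t
  have h2 := one_add_mul_le_pow (a := -Fk n t) (by linarith) m
  have h3 : chi m n t ≤ m * Fk n t := by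
    unfold chi
    have : (1 + -Fk n t) = 1 - Fk n t := by ring
    rw [this] at h2
    linarith
  have h4 : Fk n t ≤ 1 / (4 * n ^ 2 * t ^ 2) := by
    unfold Fk
    rw [div_le_div_iff₀ (by positivity) (by positivity)]
    have h5 := Dk_small n t ht0 ht
    have h6 : (‖Dk n t‖ * (2 * |t|)) ^ 2 ≤ 1 ^ 2 := pow_le_pow_left₀ (by positivity) h5 2
    have h7 : (‖Dk n t‖ * (2 * |t|)) ^ 2 = ‖Dk n t‖ ^ 2 * (4 * t ^ 2) := by
      rw [mul_pow, mul_pow, sq_abs]; ring
    have h8 : ‖Dk n t‖ ^ 2 * (4 * t ^ 2) * n ^ 2 ≤ 1 ^ 2 * n ^ 2 :=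
      mul_le_mul_of_nonneg_right (by linarith) (by positivity)
    linarith
  have h5 : (m : ℝ) * Fk n t ≤ m * (1 / (4 * n ^ 2 * t ^ 2)) :=
    mul_le_mul_of_nonneg_left h4 (by positivity)
  have h6 : (m : ℝ) * (1 / (4 * n ^ 2 * t ^ 2)) = m / (4 * n ^ 2 * t ^ 2) := by ring
  linarith

lemma chi_large (m n : ℕ) (hn : 1 ≤ n) (t : ℝ) (ht : |t| ≤ 1 / (4 * n)) :
    1 - chi m n t ≤ (1 / 2) ^ m := by
  have hn' : (0 : ℝ) < n := by exact_mod_cast hn
  obtain ⟨h0, h1⟩ := Fk_bounds n hn t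
  have h2 : 1 / 2 ≤ Fk n t := by
    have h3 : (n : ℝ) * (Real.sqrt 2 / 2) ≤ ‖Dk n t‖ := by
      have e1 : ‖Dk n t‖ = ‖∑ j ∈ range n, e ((j - (n - 1) / 2) * t)‖ := by
        have : ∑ j ∈ range n, e ((j - (n - 1) / 2) * t) = Dk n t * e (-((n - 1) / 2 * t)) := by
          unfold Dk
          rw [Finset.sum_mul]
          apply Finset.sum_congr rfl
          intro j _
          rw [← e_add]
          congr 1
          ring
        rw [this, norm_mul, norm_e, mul_one]
      rw [e1]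
      refine le_trans ?_ (Complex.re_le_norm _)
      rw [Complex.re_sum]
      have : ∀ j ∈ range n, Real.sqrt 2 / 2 ≤ (e ((j - (n - 1) / 2) * t)).re := by
        intro j hj
        rw [Finset.mem_range] at hj
        rw [e_re, ← Real.cos_pi_div_four, ← Real.cos_abs (2 * Real.pi * _)]
        apply Real.cos_le_cos_of_nonneg_of_le_pi (abs_nonneg _) (by linarith [Real.pi_pos])
        rw [abs_mul (2 * Real.pi), abs_mul (_ - _), abs_of_pos (show (0 : ℝ) < 2 * Real.pi by positivity)]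
        have hj1 : (j : ℝ) ≤ n - 1 := by
          have : (j : ℝ) + 1 ≤ n := by exact_mod_cast hj
          linarith
        have hj0 : (0 : ℝ) ≤ j := by positivity
        have a1 : |(j : ℝ) - (n - 1) / 2| ≤ n / 2 := by
          rw [abs_le]; constructor <;> linarith
        have a2 : |(j : ℝ) - (n - 1) / 2| * |t| ≤ n / 2 * (1 / (4 * n)) :=
          mul_le_mul a1 ht (abs_nonneg _) (by positivity)
        have a3 : (n : ℝ) / 2 * (1 / (4 * n)) = 1 / 8 := by field_simp; norm_num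
        rw [a3] at a2
        nlinarith [Real.pi_pos]
      have h4 := Finset.sum_le_sum this
      rw [Finset.sum_const, Finset.card_range, nsmul_eq_mul] at h4
      exact h4
    unfold Fk
    rw [le_div_iff₀ (by positivity)]
    have h4 : ((n : ℝ) * (Real.sqrt 2 / 2)) ^ 2 ≤ ‖Dk n t‖ ^ 2 :=
      pow_le_pow_left₀ (by positivity) h3 2
    have h5 : ((n : ℝ) * (Real.sqrt 2 / 2)) ^ 2 = 1 / 2 * n ^ 2 := by
      rw [mul_pow, div_pow, Real.sq_sqrt (by norm_num)]; ring
    linarith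
  unfold chi
  have : (1 - Fk n t) ^ m ≤ (1 / 2) ^ m := pow_le_pow_left₀ (by linarith) (by linarith) m
  linarith

/-- orthogonality -/
lemma orth (N : ℕ) (hN : 1 ≤ N) (l : ℤ) (hl : |l| < N) :
    ∑ k ∈ range N, e (l * ((k + 1 / 2) / N)) = if l = 0 then (N : ℂ) else 0 := by
  have hN' : (0 : ℝ) < N := by exact_mod_cast hN
  by_cases h0 : l = 0
  · rw [if_pos h0, h0]; simp [e_zero]
  · rw [if_neg h0]
    have h1 : ∀ k ∈ range N, e (l * ((k + 1 / 2) / N)) = e (l / (2 * N)) * e (l / N) ^ k := by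
      intro k _
      rw [e_pow, ← e_add]
      congr 1
      field_simp
      ring
    rw [Finset.sum_congr rfl h1, ← Finset.mul_sum]
    have h2 : e (l / N) ≠ 1 := by
      intro h
      unfold e at h
      rw [Complex.exp_eq_one_iff] at h
      obtain ⟨z, hz⟩ := h
      have h3 : ((l : ℝ) : ℂ) / N = z := by
        have hpi : (Real.pi : ℂ) ≠ 0 := by exact_mod_cast Real.pi_ne_zero
        have : (2 * Real.pi * Complex.I : ℂ) * (((l : ℝ) : ℂ) / N) = (2 * Real.pi * Complex.I) * z := by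
          push_cast at hz ⊢
          linear_combination hz
        exact mul_left_cancel₀ (by simp) this
      have h4 : (l : ℝ) / N = z := by
        have : (((l : ℝ) / N : ℝ) : ℂ) = ((z : ℝ) : ℂ) := by push_cast at h3 ⊢; exact h3
        exact_mod_cast this
      rw [div_eq_iff hN'.ne'] at h4
      have h5 : l = z * N := by exact_mod_cast h4
      have hz0 : z ≠ 0 := by rintro rfl; simp at h5; exact h0 h5
      have h6 : (N : ℤ) ≤ |l| := by
        rw [h5, abs_mul]
        have : 1 ≤ |z| := Int.one_le_abs hz0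
        have hNN : |(N : ℤ)| = N := abs_of_nonneg (by positivity)
        rw [hNN]
        nlinarith
      omega
    have h3 : (∑ k ∈ range N, e (l / N) ^ k) * (e (l / N) - 1) = 0 := by
      rw [geom_sum_mul, e_pow]
      have : (N : ℝ) * (l / N) = l := by field_simp
      rw [this, e_int, sub_self]
    have h4 : ∑ k ∈ range N, e (l / N) ^ k = 0 := by
      rcases mul_eq_zero.1 h3 with h | h
      · exact h
      · exact absurd (sub_eq_zero.1 h) h2
    rw [h4, mul_zero]


/-- sample points -/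
noncomputable def tk (N k : ℕ) : ℝ := ((k : ℝ) + 1 / 2) / N

lemma inv {h : ℕ} {g : ℝ → ℝ} {b : ℤ → ℝ}
    (hb : ∀ t : ℝ, (g t : ℂ) = ∑ j ∈ Icc (-(h : ℤ)) (h : ℤ), (b j : ℂ) * e (j * t))
    {N : ℕ} (hN : 2 * h < N) {j : ℤ} (hj : j ∈ Icc (-(h : ℤ)) (h : ℤ)) :
    ∑ k ∈ range N, (g (tk N k) : ℂ) * e (-(j * tk N k)) = N * b j := by
  have h1 : ∀ k ∈ range N, (g (tk N k) : ℂ) * e (-(j * tk N k)) =
      ∑ i ∈ Icc (-(h : ℤ)) (h : ℤ), (b i : ℂ) * e (((i - j : ℤ) : ℝ) * ((k + 1 / 2) / N)) := by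
    intro k _
    rw [hb, Finset.sum_mul]
    apply Finset.sum_congr rfl
    intro i _
    rw [mul_assoc, ← e_add]
    congr 2
    unfold tk
    push_cast
    ring
  rw [Finset.sum_congr rfl h1, Finset.sum_comm]
  have h2 : ∀ i ∈ Icc (-(h : ℤ)) (h : ℤ), ∑ k ∈ range N, (b i : ℂ) *
      e (((i - j : ℤ) : ℝ) * ((k + 1 / 2) / N)) = if i = j then N * (b j : ℂ) else 0 := by
    intro i hi
    rw [Finset.mem_Icc] at hi hj
    rw [← Finset.mul_sum, orth N (by omega) (i - j) (by rw [abs_lt]; omega)]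
    by_cases h : i = j
    · rw [if_pos h, if_pos (by omega), h]; ring
    · rw [if_neg h, if_neg (by omega), mul_zero]
  rw [Finset.sum_congr rfl h2, Finset.sum_ite_eq' _ j, if_pos hj]

lemma chi_tele (m n : ℕ) (hn : 1 ≤ n) (hm : 1 ≤ m) (M k : ℕ) (hk : k < M) (t : ℝ)
    (ht : |t| = tk (2 * M) k) (x : ℝ) (hx : x = Real.sqrt m * (2 * M : ℕ) / (2 * n)) :
    chi m n t ≤ 4 * x ^ 2 / (x + k) - 4 * x ^ 2 / (x + (k + 1 : ℕ)) := by
  have hn' : (0 : ℝ) < n := by exact_mod_cast hn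
  have hm' : (0 : ℝ) < m := by exact_mod_cast hm
  have hMp : 0 < M := by omega
  have hM' : (0 : ℝ) < M := by exact_mod_cast hMp
  have hk' : (0 : ℝ) ≤ k := by positivity
  have hx0 : 0 < x := by rw [hx]; push_cast; positivity
  have hx2 : x ^ 2 = m * (2 * M) ^ 2 / (4 * n ^ 2) := by
    rw [hx, div_pow, mul_pow, Real.sq_sqrt hm'.le]; push_cast; ring
  have e1 : 4 * x ^ 2 / (x + k) - 4 * x ^ 2 / (x + (k + 1 : ℕ)) =
      4 * x ^ 2 / ((x + k) * (x + k + 1)) := by
    push_cast; field_simp; ring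
  rw [e1]
  have h1 : (x + k) * (x + k + 1) ≤ (x + k + 1 / 2) ^ 2 := by nlinarith
  by_cases hc : (k : ℝ) + 1 / 2 ≤ x
  · refine le_trans (chi_bounds m n hn t).2 ?_
    rw [le_div_iff₀ (by positivity)]
    have h2 : (x + k + 1 / 2) ^ 2 ≤ (2 * x) ^ 2 := pow_le_pow_left₀ (by positivity) (by linarith) 2
    linarith
  · push Not at hc
    have ht0 : 0 < |t| := by rw [ht]; unfold tk; positivity
    have ht2 : |t| ≤ 1 / 2 := by
      rw [ht]; unfold tk
      rw [div_le_iff₀ (by positivity)]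
      push_cast
      have : (k : ℝ) + 1 ≤ M := by exact_mod_cast hk
      linarith
    have h2 := chi_small m n hn t (abs_pos.1 ht0) ht2
    refine le_trans h2 ?_
    have h3 : (m : ℝ) / (4 * n ^ 2 * t ^ 2) = x ^ 2 / (k + 1 / 2) ^ 2 := by
      rw [← sq_abs t, ht, hx2]; unfold tk; push_cast; field_simp
    rw [h3, div_le_div_iff₀ (by positivity) (by positivity)]
    have h4 : (x + k + 1 / 2) ^ 2 ≤ (2 * (k + 1 / 2)) ^ 2 :=
      pow_le_pow_left₀ (by positivity) (by linarith) 2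
    have h5 : (x + k) * (x + k + 1) ≤ 4 * (k + 1 / 2) ^ 2 := by linarith
    have h6 := mul_le_mul_of_nonneg_left h5 (show 0 ≤ x ^ 2 by positivity)
    linarith

theorem main : Pool.Agent.W246.LG.S_chi := by
  intro m n hm hn
  have hn' : (0 : ℝ) < n := by exact_mod_cast hn
  have hm' : (0 : ℝ) < m := by exact_mod_cast hm
  obtain ⟨b, hb1, hb2⟩ := TP_chi m n
  obtain ⟨M, hM⟩ : ∃ M, M = m * n + 1 := ⟨_, rfl⟩
  have hMpos : 0 < M := by omega
  have hM' : (0 : ℝ) < M := by exact_mod_cast hMpos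
  have hN : 2 * (m * n) < 2 * M := by omega
  have h00 : (0 : ℤ) ∈ Icc (-((m * n : ℕ) : ℤ)) ((m * n : ℕ) : ℤ) := by
    rw [Finset.mem_Icc]; constructor <;> omega
  have hb0 : ((2 * M : ℕ) : ℝ) * b 0 = ∑ k ∈ range (2 * M), chi m n (tk (2 * M) k) := by
    have := inv hb2 hN h00
    have h1 : (((2 * M : ℕ) : ℝ) * b 0 : ℝ) = ((∑ k ∈ range (2 * M), chi m n (tk (2 * M) k) : ℝ) : ℂ) := by
      push_cast at this ⊢
      rw [← this]
      apply Finset.sum_congr rfl
      intro k _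
      simp [e_zero]
    exact_mod_cast h1
  have hbj : ∀ j ∈ Icc (-((m * n : ℕ) : ℤ)) ((m * n : ℕ) : ℤ), |b j| ≤ b 0 := by
    intro j hj
    have h1 := inv hb2 hN hj
    have h2 : ‖((2 * M : ℕ) : ℂ) * (b j : ℂ)‖ ≤ ∑ k ∈ range (2 * M), chi m n (tk (2 * M) k) := by
      rw [← h1]
      refine le_trans (norm_sum_le _ _) ?_
      apply Finset.sum_le_sum
      intro k _
      rw [norm_mul, norm_e, mul_one, Complex.norm_real, Real.norm_eq_abs,
        abs_of_nonneg (chi_bounds m n hn _).1]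
    rw [← hb0, norm_mul, Complex.norm_natCast, Complex.norm_real, Real.norm_eq_abs] at h2
    exact le_of_mul_le_mul_left h2 (by positivity)
  refine ⟨chi m n, fun j => if j ∈ Icc (-((m * n : ℕ) : ℤ)) ((m * n : ℕ) : ℤ) then b j else 0,
    chi_bounds m n hn, chi_per m n, ?_, ?_, ?_, chi_large m n hn, chi_small m n hn, ?_⟩
  · intro t
    rw [hb2]
    apply Finset.sum_congr rfl
    intro j hj
    beta_reduce
    rw [if_pos hj, e_eq]
  · intro j
    beta_reduce
    by_cases h : j ∈ Icc (-((m * n : ℕ) : ℤ)) ((m * n : ℕ) : ℤ)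
    · rw [if_pos h, if_pos, hb1]
      rw [Finset.mem_Icc] at h ⊢; omega
    · rw [if_neg h, if_neg]
      rw [Finset.mem_Icc] at h ⊢; omega
  · intro j
    beta_reduce
    rw [if_pos h00]
    by_cases h : j ∈ Icc (-((m * n : ℕ) : ℤ)) ((m * n : ℕ) : ℤ)
    · rw [if_pos h]; exact hbj j h
    · rw [if_neg h, abs_zero]
      have := hbj 0 h00
      exact (abs_nonneg _).trans this
  · beta_reduce
    rw [if_pos h00]
    obtain ⟨x, hx⟩ : ∃ x, x = Real.sqrt m * (2 * M : ℕ) / (2 * n) := ⟨_, rfl⟩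
    have hx0 : 0 < x := by rw [hx]; push_cast; positivity
    have h1 : ∑ k ∈ range (2 * M), chi m n (tk (2 * M) k) ≤ 8 * x := by
      rw [two_mul M, Finset.sum_range_add, ← Finset.sum_range_reflect (fun k => chi m n (tk (M + M) (M + k))),
        ← two_mul M]
      have h2 : ∑ k ∈ range M, chi m n (tk (2 * M) k) ≤
          ∑ k ∈ range M, (4 * x ^ 2 / (x + k) - 4 * x ^ 2 / (x + (k + 1 : ℕ))) := by
        apply Finset.sum_le_sum
        intro k hk
        rw [Finset.mem_range] at hk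
        apply chi_tele m n hn hm M k hk _ _ x hx
        apply abs_of_nonneg
        unfold tk; positivity
      have h3 : ∑ k ∈ range M, chi m n (tk (2 * M) (M + (M - 1 - k))) ≤
          ∑ k ∈ range M, (4 * x ^ 2 / (x + k) - 4 * x ^ 2 / (x + (k + 1 : ℕ))) := by
        apply Finset.sum_le_sum
        intro k hk
        rw [Finset.mem_range] at hk
        have h4 : tk (2 * M) (M + (M - 1 - k)) = -tk (2 * M) k + 1 := by
          have : ((M + (M - 1 - k) : ℕ) : ℝ) = 2 * M - 1 - k := by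
            have h5 : M + (M - 1 - k) + 1 + k = 2 * M := by omega
            have h6 : ((M + (M - 1 - k) + 1 + k : ℕ) : ℝ) = ((2 * M : ℕ) : ℝ) := by rw [h5]
            push_cast at h6 ⊢
            linarith
          unfold tk
          rw [this]
          push_cast
          field_simp
          ring
        rw [h4, chi_per]
        apply chi_tele m n hn hm M k hk _ _ x hx
        rw [abs_neg]
        apply abs_of_nonneg
        unfold tk; positivity
      have h5 : ∑ k ∈ range M, (4 * x ^ 2 / (x + k) - 4 * x ^ 2 / (x + (k + 1 : ℕ))) ≤ 4 * x := by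
        rw [Finset.sum_range_sub' (fun k : ℕ => 4 * x ^ 2 / (x + k))]
        have h6 : 0 ≤ 4 * x ^ 2 / (x + M) := by positivity
        have h7 : 4 * x ^ 2 / (x + (0 : ℕ)) = 4 * x := by
          push_cast; rw [add_zero]; field_simp
        rw [h7]; linarith
      linarith
    rw [← hb0, hx] at h1
    have h2 : 8 * (Real.sqrt m * (2 * M : ℕ) / (2 * n)) = ((2 * M : ℕ) : ℝ) * (4 * Real.sqrt m / n) := by
      field_simp; ring
    rw [h2] at h1
    exact le_of_mul_le_mul_left h1 (by positivity)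

end Pool.Agent.W605.LGChi
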