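import Pool.Agent.W246.LG.Defs

set_option autoImplicit false

namespace Pool.Agent.W605.LGGraph

open Finset Classical

/-- expectation over a random subset of `B` -/
noncomputable def ex {α : Type} (B : Finset α) (p : α → ℝ) (f : Finset α → ℝ) : ℝ :=
  ∑ F ∈ B.powerset, ((∏ b ∈ F, p b) * ∏ b ∈ B \ F, (1 - p b)) * f F

variable {α : Type}

lemma ex_sum (B : Finset α) (p : α → ℝ) {ι : Type} (s : Finset ι) (f : ι → Finset α → ℝ) :
    ex B p (fun F => ∑ i ∈ s, f i F) = ∑ i ∈ s, ex B p (f i) := by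
  unfold ex
  rw [Finset.sum_comm]
  apply Finset.sum_congr rfl
  intro F _
  rw [Finset.mul_sum]

lemma ex_add (B : Finset α) (p : α → ℝ) (f g : Finset α → ℝ) :
    ex B p (fun F => f F + g F) = ex B p f + ex B p g := by
  unfold ex
  rw [← Finset.sum_add_distrib]
  apply Finset.sum_congr rfl
  intro F _
  ring

lemma ex_mul (B : Finset α) (p : α → ℝ) (c : ℝ) (f : Finset α → ℝ) :
    ex B p (fun F => c * f F) = c * ex B p f := by
  unfold ex
  rw [Finset.mul_sum]
  apply Finset.sum_congr rfl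
  intro F _
  ring

lemma ex_mono {B : Finset α} {p : α → ℝ} (hp : ∀ b ∈ B, 0 ≤ p b ∧ p b ≤ 1)
    {f g : Finset α → ℝ} (h : ∀ F ⊆ B, f F ≤ g F) : ex B p f ≤ ex B p g := by
  unfold ex
  apply Finset.sum_le_sum
  intro F hF
  rw [Finset.mem_powerset] at hF
  apply mul_le_mul_of_nonneg_left (h F hF)
  apply mul_nonneg
  · exact Finset.prod_nonneg fun b hb => (hp b (hF hb)).1
  · apply Finset.prod_nonneg
    intro b hb
    have := (hp b (Finset.mem_sdiff.1 hb).1).2
    linarith

lemma ex_ind {B : Finset α} (p : α → ℝ) {U : Finset α} (hU : U ⊆ B) :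
    ex B p (fun F => if U ⊆ F then 1 else 0) = ∏ b ∈ U, p b := by
  have h1 : ex B p (fun F => if U ⊆ F then 1 else 0) =
      ∑ F ∈ B.powerset, (∏ b ∈ F, p b) * ∏ b ∈ B \ F, (if b ∈ U then 0 else (1 - p b)) := by
    unfold ex
    apply Finset.sum_congr rfl
    intro F hF
    rw [Finset.mem_powerset] at hF
    beta_reduce
    by_cases h : U ⊆ F
    · rw [if_pos h, mul_one]
      congr 1
      apply Finset.prod_congr rfl
      intro b hb
      rw [if_neg]
      intro hbU
      exact (Finset.mem_sdiff.1 hb).2 (h hbU)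
    · rw [if_neg h, mul_zero]
      obtain ⟨u, hu, huF⟩ := Finset.not_subset.1 h
      rw [Finset.prod_eq_zero (i := u) (Finset.mem_sdiff.2 ⟨hU hu, huF⟩) (by rw [if_pos hu]),
        mul_zero]
  rw [h1, ← Finset.prod_add, ← Finset.prod_sdiff hU]
  rw [Finset.prod_eq_one, one_mul]
  · apply Finset.prod_congr rfl
    intro b hb
    rw [if_pos hb, add_zero]
  · intro b hb
    rw [if_neg (Finset.mem_sdiff.1 hb).2]
    ring

lemma ex_one (B : Finset α) (p : α → ℝ) : ex B p (fun _ => 1) = 1 := by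
  have h := ex_ind (B := B) p (U := ∅) (Finset.empty_subset _)
  simpa using h

/-- the set of the two elements of a pair -/
noncomputable def us (i : α × α) : Finset α := {i.1, i.2}

lemma prod_us (p : α → ℝ) {i : α × α} (hi : i.1 ≠ i.2) : ∏ b ∈ us i, p b = p i.1 * p i.2 := by
  unfold us
  rw [Finset.prod_pair hi]

lemma diff_bound {p : α → ℝ} {U : Finset α} {j : α × α} (hj : j.1 ≠ j.2)
    (h1 : 0 ≤ p j.1) (h2 : 0 ≤ p j.2) :
    ∏ b ∈ us j \ U, p b ≤ (if j.1 ∈ U ∧ j.2 ∈ U then 1 else 0) + (if j.1 ∈ U then p j.2 else 0)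
      + (if j.2 ∈ U then p j.1 else 0) + p j.1 * p j.2 := by
  have h12 := mul_nonneg h1 h2
  by_cases a1 : j.1 ∈ U <;> by_cases a2 : j.2 ∈ U
  · have : us j \ U = ∅ := by
      ext x; simp only [us, Finset.mem_sdiff, Finset.mem_insert, Finset.mem_singleton,
        Finset.notMem_empty, iff_false, not_and, not_not]
      rintro (rfl | rfl)
      · exact a1
      · exact a2
    rw [this]; simp [a1, a2]; linarith
  · have : us j \ U = {j.2} := by
      ext x; simp only [us, Finset.mem_sdiff, Finset.mem_insert, Finset.mem_singleton]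
      constructor
      · rintro ⟨rfl | rfl, h⟩
        · exact absurd a1 h
        · rfl
      · rintro rfl
        exact ⟨Or.inr rfl, a2⟩
    rw [this]; simp [a1, a2]; linarith
  · have : us j \ U = {j.1} := by
      ext x; simp only [us, Finset.mem_sdiff, Finset.mem_insert, Finset.mem_singleton]
      constructor
      · rintro ⟨rfl | rfl, h⟩
        · rfl
        · exact absurd a2 h
      · rintro rfl
        exact ⟨Or.inl rfl, a1⟩
    rw [this]; simp [a1, a2]; linarith
  · have : us j \ U = us j := by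
      ext x; simp only [us, Finset.mem_sdiff, Finset.mem_insert, Finset.mem_singleton]
      constructor
      · rintro ⟨h, _⟩; exact h
      · intro h
        refine ⟨h, ?_⟩
        rcases h with rfl | rfl
        · exact a1
        · exact a2
    rw [this, prod_us p hj]; simp [a1, a2]

/-- the main estimate for one vertex -/
lemma core {B : Finset α} {p : α → ℝ} {δ D : ℝ} {E : α → α → Prop}
    (hp : ∀ b ∈ B, 0 ≤ p b ∧ p b ≤ 1) (hδ : ∀ b ∈ B, p b ≤ δ) (hδ0 : 0 ≤ δ)
    (hD : 4 * D * δ ≤ 1 / 4)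
    (hd1 : ∀ s ∈ B, ((B.filter (fun t => E s t)).card : ℝ) ≤ D)
    (hd2 : ∀ t ∈ B, ((B.filter (fun s => E s t)).card : ℝ) ≤ D)
    (hl : ∑ i ∈ (B ×ˢ B).filter (fun i => i.1 ≠ i.2 ∧ E i.1 i.2), p i.1 * p i.2 ≤ 1 / 16) :
    (∑ i ∈ (B ×ˢ B).filter (fun i => i.1 ≠ i.2 ∧ E i.1 i.2), p i.1 * p i.2) / 4 ≤
      ex B p (fun F => if ∃ s ∈ F, ∃ t ∈ F, s ≠ t ∧ E s t then 1 else 0) := by
  obtain ⟨I, hI⟩ : ∃ I, I = (B ×ˢ B).filter (fun i => i.1 ≠ i.2 ∧ E i.1 i.2) := ⟨_, rfl⟩
  rw [← hI] at hl ⊢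
  have memI : ∀ i, i ∈ I ↔ (i.1 ∈ B ∧ i.2 ∈ B) ∧ i.1 ≠ i.2 ∧ E i.1 i.2 := by
    intro i; rw [hI, Finset.mem_filter, Finset.mem_product]
  obtain ⟨l, hld⟩ : ∃ l, l = ∑ i ∈ I, p i.1 * p i.2 := ⟨_, rfl⟩
  rw [← hld] at hl ⊢
  have usB : ∀ i ∈ I, us i ⊆ B := by
    intro i hi
    obtain ⟨⟨h1, h2⟩, _⟩ := (memI i).1 hi
    intro x hx
    simp only [us, Finset.mem_insert, Finset.mem_singleton] at hx
    rcases hx with rfl | rfl
    · exact h1
    · exact h2
  -- the number of pairs
  let N : Finset α → ℝ := fun F => ∑ i ∈ I, if us i ⊆ F then 1 else 0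
  have hN1 : ex B p N = l := by
    rw [ex_sum, hld]
    apply Finset.sum_congr rfl
    intro i hi
    rw [ex_ind p (usB i hi), prod_us p ((memI i).1 hi).2.1]
  have hN2 : ex B p (fun F => N F * N F) ≤ l * (2 + 1 / 4 + 1 / 16) := by
    have h1 : (fun F => N F * N F) = fun F => ∑ i ∈ I, ∑ j ∈ I,
        (if us i ∪ us j ⊆ F then (1 : ℝ) else 0) := by
      funext F
      simp only [N]
      rw [Finset.sum_mul_sum]
      apply Finset.sum_congr rfl
      intro i _
      apply Finset.sum_congr rfl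
      intro j _
      by_cases a : us i ⊆ F <;> by_cases b : us j ⊆ F <;> simp [a, b, Finset.union_subset_iff]
    rw [h1, ex_sum, hld, Finset.sum_mul]
    apply Finset.sum_le_sum
    intro i hi
    rw [ex_sum]
    have hi' := (memI i).1 hi
    have h2 : ∀ j ∈ I, ex B p (fun F => if us i ∪ us j ⊆ F then (1 : ℝ) else 0) =
        p i.1 * p i.2 * ∏ b ∈ us j \ us i, p b := by
      intro j hj
      rw [ex_ind p (Finset.union_subset (usB i hi) (usB j hj)), ← prod_us p hi'.2.1,
        ← Finset.union_sdiff_self_eq_union, Finset.prod_union Finset.disjoint_sdiff]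
    rw [Finset.sum_congr rfl h2, ← Finset.mul_sum]
    apply mul_le_mul_of_nonneg_left _ (mul_nonneg (hp _ hi'.1.1).1 (hp _ hi'.1.2).1)
    have h3 : ∑ j ∈ I, ∏ b ∈ us j \ us i, p b ≤ ∑ j ∈ I,
        ((if j.1 ∈ us i ∧ j.2 ∈ us i then 1 else 0) + (if j.1 ∈ us i then p j.2 else 0)
      + (if j.2 ∈ us i then p j.1 else 0) + p j.1 * p j.2) := by
      apply Finset.sum_le_sum
      intro j hj
      have hj' := (memI j).1 hj
      exact diff_bound hj'.2.1 (hp _ hj'.1.1).1 (hp _ hj'.1.2).1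
    rw [Finset.sum_add_distrib, Finset.sum_add_distrib, Finset.sum_add_distrib, ← hld] at h3
    have cU : (us i).card = 2 := by unfold us; exact Finset.card_pair hi'.2.1
    have b1 : ∑ j ∈ I, (if j.1 ∈ us i ∧ j.2 ∈ us i then (1 : ℝ) else 0) ≤ 2 := by
      rw [← Finset.sum_filter, Finset.sum_const, nsmul_eq_mul, mul_one]
      have : (I.filter (fun j => j.1 ∈ us i ∧ j.2 ∈ us i)).card ≤ (us i).offDiag.card := by
        apply Finset.card_le_card
        intro j hj
        rw [Finset.mem_filter] at hj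
        rw [Finset.mem_offDiag]
        exact ⟨hj.2.1, hj.2.2, ((memI j).1 hj.1).2.1⟩
      rw [Finset.offDiag_card, cU] at this
      exact_mod_cast this
    have b2 : ∑ j ∈ I, (if j.1 ∈ us i then p j.2 else 0) ≤ 2 * D * δ := by
      rw [← Finset.sum_filter]
      have c1 : ∑ j ∈ I.filter (fun j => j.1 ∈ us i), p j.2 ≤
          ∑ j ∈ I.filter (fun j => j.1 ∈ us i), δ := by
        apply Finset.sum_le_sum
        intro j hj
        rw [Finset.mem_filter] at hj
        exact hδ _ ((memI j).1 hj.1).1.2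
      rw [Finset.sum_const, nsmul_eq_mul] at c1
      have c2 : ((I.filter (fun j => j.1 ∈ us i)).card : ℝ) ≤ 2 * D := by
        rw [Finset.card_eq_sum_card_fiberwise (f := Prod.fst) (t := us i)
          (fun j hj => by
            have := (Finset.mem_filter.1 hj).2
            exact this)]
        push_cast
        have : ∑ s ∈ us i, (((I.filter (fun j => j.1 ∈ us i)).filter
            (fun j => j.1 = s)).card : ℝ) ≤ ∑ s ∈ us i, D := by
          apply Finset.sum_le_sum
          intro s hs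
          refine le_trans ?_ (hd1 s (usB i hi hs))
          norm_cast
          apply Finset.card_le_card_of_injOn Prod.snd
          · intro j hj
            simp only [Finset.coe_filter, Finset.mem_filter, Set.mem_ofPred_eq] at hj ⊢
            have hj' := (memI j).1 hj.1.1
            exact ⟨hj'.1.2, hj.2 ▸ hj'.2.2⟩
          · intro j hj j' hj' hjj
            simp only [Finset.coe_filter, Finset.mem_filter, Set.mem_ofPred_eq] at hj hj'
            exact Prod.ext (hj.2.trans hj'.2.symm) hjj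
        rw [Finset.sum_const, cU, nsmul_eq_mul] at this
        exact_mod_cast this
      have := mul_le_mul_of_nonneg_right c2 hδ0
      linarith
    have b3 : ∑ j ∈ I, (if j.2 ∈ us i then p j.1 else 0) ≤ 2 * D * δ := by
      rw [← Finset.sum_filter]
      have c1 : ∑ j ∈ I.filter (fun j => j.2 ∈ us i), p j.1 ≤
          ∑ j ∈ I.filter (fun j => j.2 ∈ us i), δ := by
        apply Finset.sum_le_sum
        intro j hj
        rw [Finset.mem_filter] at hj
        exact hδ _ ((memI j).1 hj.1).1.1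
      rw [Finset.sum_const, nsmul_eq_mul] at c1
      have c2 : ((I.filter (fun j => j.2 ∈ us i)).card : ℝ) ≤ 2 * D := by
        rw [Finset.card_eq_sum_card_fiberwise (f := Prod.snd) (t := us i)
          (fun j hj => by
            have := (Finset.mem_filter.1 hj).2
            exact this)]
        push_cast
        have : ∑ s ∈ us i, (((I.filter (fun j => j.2 ∈ us i)).filter
            (fun j => j.2 = s)).card : ℝ) ≤ ∑ s ∈ us i, D := by
          apply Finset.sum_le_sum
          intro s hs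
          refine le_trans ?_ (hd2 s (usB i hi hs))
          norm_cast
          apply Finset.card_le_card_of_injOn Prod.fst
          · intro j hj
            simp only [Finset.coe_filter, Finset.mem_filter, Set.mem_ofPred_eq] at hj ⊢
            have hj' := (memI j).1 hj.1.1
            exact ⟨hj'.1.1, hj.2 ▸ hj'.2.2⟩
          · intro j hj j' hj' hjj
            simp only [Finset.coe_filter, Finset.mem_filter, Set.mem_ofPred_eq] at hj hj'
            exact Prod.ext hjj (hj.2.trans hj'.2.symm)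
        rw [Finset.sum_const, cU, nsmul_eq_mul] at this
        exact_mod_cast this
      have := mul_le_mul_of_nonneg_right c2 hδ0
      linarith
    linarith
  -- Bonferroni
  have key : ∀ F ⊆ B, 3 / 2 * N F + (-1 / 2) * (N F * N F) ≤
      if ∃ s ∈ F, ∃ t ∈ F, s ≠ t ∧ E s t then 1 else 0 := by
    intro F hF
    obtain ⟨n, hn⟩ : ∃ n : ℕ, n = (I.filter (fun i => us i ⊆ F)).card := ⟨_, rfl⟩
    have hNF : N F = n := by
      simp only [N]
      rw [← Finset.sum_filter, Finset.sum_const, nsmul_eq_mul, mul_one, hn]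
    by_cases h : ∃ s ∈ F, ∃ t ∈ F, s ≠ t ∧ E s t
    · rw [if_pos h, hNF]
      have : (n : ℝ) = 0 ∨ (n : ℝ) = 1 ∨ (n : ℝ) = 2 ∨ 3 ≤ (n : ℝ) := by
        norm_cast; omega
      rcases this with h | h | h | h
      · rw [h]; norm_num
      · rw [h]; norm_num
      · rw [h]; norm_num
      · nlinarith
    · rw [if_neg h, hNF]
      have : n = 0 := by
        rw [hn, Finset.card_eq_zero, Finset.filter_eq_empty_iff]
        intro i hi hiF
        apply h
        have hi' := (memI i).1 hi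
        exact ⟨i.1, hiF (by simp [us]), i.2, hiF (by simp [us]), hi'.2⟩
      rw [this]; simp
  have h4 := ex_mono hp key
  rw [ex_add, ex_mul, ex_mul, hN1] at h4
  have hl0 : 0 ≤ l := by
    rw [hld]
    apply Finset.sum_nonneg
    intro i hi
    have hi' := (memI i).1 hi
    exact mul_nonneg (hp _ hi'.1.1).1 (hp _ hi'.1.2).1
  linarith


theorem main : Pool.Agent.W246.LG.S_graph := by
  intro α B q qs W D σ r E hq hW hW1 hD1 hqs hDqs hσ hr hd1 hd2 hF
  have hW0 : 0 < W := by linarith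
  have hD0 : 0 < D := by linarith
  have hDq0 : 0 < D * qs := by positivity
  -- S = sqrt (W D qs), θ = 1/(4S)
  obtain ⟨S, hS⟩ : ∃ S, S = Real.sqrt (W * (D * qs)) := ⟨_, rfl⟩
  have hSpos : 0 < S := by rw [hS]; exact Real.sqrt_pos.2 (by positivity)
  have hSS : S * S = W * (D * qs) := by rw [hS]; exact Real.mul_self_sqrt (by positivity)
  obtain ⟨R, hR⟩ : ∃ R, R = Real.sqrt (D * qs) := ⟨_, rfl⟩
  have hRpos : 0 < R := by rw [hR]; exact Real.sqrt_pos.2 hDq0
  have hRR : R * R = D * qs := by rw [hR]; exact Real.mul_self_sqrt hDq0.le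
  have hR4 : R ≤ 1 / 4 := by
    by_contra hcon
    push Not at hcon
    nlinarith
  have hSR : R ≤ S := by
    rw [hR, hS]
    apply Real.sqrt_le_sqrt
    nlinarith
  have hSWR : S ≤ W * R := by
    by_contra hcon
    push Not at hcon
    have h1 : (W * R) * (W * R) < S * S := mul_self_lt_mul_self (by positivity) hcon
    have h2 : (W * R) * (W * R) = W * W * (D * qs) := by rw [← hRR]; ring
    have h3 : 1 * (W * (D * qs)) ≤ W * (W * (D * qs)) :=
      mul_le_mul_of_nonneg_right hW1 (by positivity)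
    linarith
  obtain ⟨θ, hθ⟩ : ∃ θ, θ = 1 / (4 * S) := ⟨_, rfl⟩
  have hθ0 : 0 < θ := by rw [hθ]; positivity
  have hθS : θ * (4 * S) = 1 := by rw [hθ]; field_simp
  -- D qs θ ≤ R / 4
  have hDqθ : D * qs * θ ≤ R / 4 := by
    have h1 : R * R * θ ≤ R * S * θ :=
      mul_le_mul_of_nonneg_right (mul_le_mul_of_nonneg_left hSR hRpos.le) hθ0.le
    have h2 : R * S * θ = R / 4 * (θ * (4 * S)) := by ring
    rw [hθS] at h2
    rw [← hRR]; linarith
  have hqθ : qs * θ ≤ D * qs * θ := by
    have : 1 * (qs * θ) ≤ D * (qs * θ) := mul_le_mul_of_nonneg_right hD1 (by positivity)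
    linarith
  obtain ⟨p, hp⟩ : ∃ p : α → ℝ, p = fun b => q b * θ := ⟨_, rfl⟩
  have hpδ : ∀ b ∈ B, p b ≤ qs * θ := by
    intro b hb
    rw [hp]
    exact mul_le_mul_of_nonneg_right (hq b hb).2 hθ0.le
  have hp01 : ∀ b ∈ B, 0 ≤ p b ∧ p b ≤ 1 := by
    intro b hb
    refine ⟨?_, ?_⟩
    · rw [hp]; exact mul_nonneg (hq b hb).1 hθ0.le
    · have := hpδ b hb
      linarith
  -- the sums over pairs
  obtain ⟨g, hg⟩ : ∃ g : α → ℝ, g = fun x =>
    ∑ s ∈ B, ∑ t ∈ B.filter (fun t => s ≠ t ∧ E x s t), q s * q t := ⟨_, rfl⟩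
  have hgI : ∀ x, ∑ i ∈ (B ×ˢ B).filter (fun i => i.1 ≠ i.2 ∧ E x i.1 i.2), p i.1 * p i.2 =
      g x * θ ^ 2 := by
    intro x
    rw [hg, Finset.sum_filter, Finset.sum_product]
    beta_reduce
    rw [Finset.sum_mul]
    apply Finset.sum_congr rfl
    intro s _
    rw [Finset.sum_filter, Finset.sum_mul]
    apply Finset.sum_congr rfl
    intro t _
    by_cases h : s ≠ t ∧ E x s t
    · rw [if_pos h, if_pos h, hp]; ring
    · rw [if_neg h, if_neg h]; ring
  have hg1 : ∀ x ∈ B, g x ≤ W * (D * qs) := by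
    intro x hx
    rw [hg]
    have h1 : ∀ s ∈ B, ∑ t ∈ B.filter (fun t => s ≠ t ∧ E x s t), q s * q t ≤
        q s * (D * qs) := by
      intro s hs
      rw [← Finset.mul_sum]
      apply mul_le_mul_of_nonneg_left _ (hq s hs).1
      have h2 : ∑ t ∈ B.filter (fun t => s ≠ t ∧ E x s t), q t ≤
          ∑ t ∈ B.filter (fun t => s ≠ t ∧ E x s t), qs :=
        Finset.sum_le_sum fun t ht => (hq t (Finset.mem_filter.1 ht).1).2
      rw [Finset.sum_const, nsmul_eq_mul] at h2
      have h3 : ((B.filter (fun t => s ≠ t ∧ E x s t)).card : ℝ) ≤ D := by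
        refine le_trans ?_ (hd1 x hx s hs)
        norm_cast
        apply Finset.card_le_card
        intro t ht
        rw [Finset.mem_filter] at ht ⊢
        exact ⟨ht.1, ht.2.2⟩
      have := mul_le_mul_of_nonneg_right h3 hqs.le
      linarith
    have h2 := Finset.sum_le_sum h1
    rw [← Finset.sum_mul] at h2
    have h3 := mul_le_mul_of_nonneg_right hW hDq0.le
    linarith
  have hθ2 : W * (D * qs) * θ ^ 2 = 1 / 16 := by
    rw [← hSS]
    have : S * S * θ ^ 2 = (θ * (4 * S)) ^ 2 / 16 := by ring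
    rw [this, hθS]; norm_num
  have hcore : ∀ x ∈ B, g x * θ ^ 2 / 4 ≤
      ex B p (fun F => if ∃ s ∈ F, ∃ t ∈ F, s ≠ t ∧ E x s t then 1 else 0) := by
    intro x hx
    rw [← hgI]
    apply core (δ := qs * θ) (D := D) hp01 hpδ (by positivity) _ (hd1 x hx) (hd2 x hx)
    · rw [hgI]
      have := mul_le_mul_of_nonneg_right (hg1 x hx) (show 0 ≤ θ ^ 2 by positivity)
      linarith
    · linarith
  have hsum := Finset.sum_le_sum hcore
  have hup : ex B p (fun F => ∑ x ∈ B, (if ∃ s ∈ F, ∃ t ∈ F, s ≠ t ∧ E x s t then (1 : ℝ) else 0)) ≤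
      ex B p (fun F => σ * (∑ b ∈ B, if {b} ⊆ F then (1 : ℝ) else 0) + σ * r * 1) := by
    apply ex_mono hp01
    intro F hFB
    have h1 := hF F hFB
    rw [← Finset.sum_filter, Finset.sum_const, nsmul_eq_mul, mul_one]
    have h2 : (∑ b ∈ B, if {b} ⊆ F then (1 : ℝ) else 0) = F.card := by
      rw [← Finset.sum_filter, Finset.sum_const, nsmul_eq_mul, mul_one]
      congr 2
      ext b
      rw [Finset.mem_filter, Finset.singleton_subset_iff]
      exact ⟨fun h => h.2, fun h => ⟨hFB h, h⟩⟩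
    rw [h2]
    linarith
  rw [ex_add, ex_mul, ex_mul, ex_one, ex_sum, ex_sum] at hup
  have hup2 : ∑ b ∈ B, ex B p (fun F => if {b} ⊆ F then (1 : ℝ) else 0) ≤ W * θ := by
    have : ∀ b ∈ B, ex B p (fun F => if {b} ⊆ F then (1 : ℝ) else 0) = q b * θ := by
      intro b hb
      rw [ex_ind p (Finset.singleton_subset_iff.2 hb), Finset.prod_singleton, hp]
    rw [Finset.sum_congr rfl this, ← Finset.sum_mul]
    exact mul_le_mul_of_nonneg_right hW hθ0.le
  have hup3 := mul_le_mul_of_nonneg_left hup2 hσ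
  have hfin : (∑ x ∈ B, g x) * θ ^ 2 ≤ 4 * (σ * (W * θ) + σ * r) := by
    have : (∑ x ∈ B, g x) * θ ^ 2 = 4 * ∑ x ∈ B, g x * θ ^ 2 / 4 := by
      rw [Finset.sum_mul, Finset.mul_sum]
      apply Finset.sum_congr rfl
      intro x _; ring
    linarith
  have hG : ∑ x ∈ B, g x = (∑ x ∈ B, g x) * θ ^ 2 * (4 * S) ^ 2 := by
    have : (∑ x ∈ B, g x) * θ ^ 2 * (4 * S) ^ 2 = (∑ x ∈ B, g x) * (θ * (4 * S)) ^ 2 := by ring
    rw [this, hθS]; ring
  have hfin2 : ∑ x ∈ B, g x ≤ 4 * (σ * (W * θ) + σ * r) * (4 * S) ^ 2 := by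
    rw [hG]
    exact mul_le_mul_of_nonneg_right hfin (by positivity)
  have e1 : 4 * (σ * (W * θ) + σ * r) * (4 * S) ^ 2 =
      16 * σ * W * S * (θ * (4 * S)) + 64 * σ * r * (S * S) := by ring
  rw [e1, hθS, hSS, ← hRR] at hfin2
  have f1 : σ * W * S ≤ σ * W * (W * R) := mul_le_mul_of_nonneg_left hSWR (by positivity)
  have f2 : σ * r * W * R * R ≤ σ * r * W * R * (1 / 4) :=
    mul_le_mul_of_nonneg_left hR4 (by positivity)
  have f3 : σ * r * W * R * 1 ≤ σ * r * W * R * W := mul_le_mul_of_nonneg_left hW1 (by positivity)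
  have f4 : 0 ≤ σ * W ^ 2 * R := by positivity
  have f5 : 0 ≤ σ * r * W ^ 2 * R := by positivity
  have f6 : ∑ x ∈ B, g x ≤ 100 * σ * (r + 1) * W ^ 2 * R := by linarith
  rw [← hR]
  rw [hg] at f6
  exact f6

end Pool.Agent.W605.LGGraph
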