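import Pool.Agent.W428.MOT.EStm

/-!
# Project ME, part EIND: the classes of the bases of the strata do not depend on `u`
-/

set_option autoImplicit false

namespace Pool.Agent.W605.MEInd

open MvPolynomial
open Pool.Agent.W428.MOT
open Pool.Agent.W426.SM (AffInd gord ford)

variable {k : Type} [Field k] {n r : ℕ}

theorem zpow_sum' {F : Type} [Field F] {α : Type} (s : F) (hs : s ≠ 0) (t : Finset α)
    (κ : α → ℤ) : s ^ (∑ i ∈ t, κ i) = ∏ i ∈ t, s ^ κ i := by
  classical
  induction t using Finset.induction_on with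
  | empty => simp
  | insert a t ha ih => rw [Finset.sum_insert ha, Finset.prod_insert ha, zpow_add₀ hs, ih]

theorem dact_prod (κ : Fin n → ℤ) (s : AlgebraicClosure k) (hs : s ≠ 0) (z : Pt k (Fin n))
    (A : Fin n → ℕ) :
    ∏ i, dact κ s z i ^ A i = s ^ (∑ i, κ i * (A i : ℤ)) * ∏ i, z i ^ A i := by
  simp only [dact, mul_pow, Finset.prod_mul_distrib]
  rw [zpow_sum' s hs]
  congr 1
  refine Finset.prod_congr rfl fun i _ => ?_
  rw [zpow_mul, zpow_natCast]

theorem dact_gbar (κ : Fin n → ℤ) (s : AlgebraicClosure k) (hs : s ≠ 0) (z : Pt k (Fin n))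
    (m : Fin r → Fin n → ℕ) (c : Fin r → AlgebraicClosure k) (τ : Finset (Fin r)) (g : ℤ)
    (h : ∀ j ∈ τ, ∑ i, κ i * (m j i : ℤ) = g) :
    gbar m c τ (dact κ s z) = s ^ g * gbar m c τ z := by
  unfold gbar
  rw [Finset.mul_sum]
  refine Finset.sum_congr rfl fun j hj => ?_
  rw [dact_prod κ s hs z (m j), h j hj]
  ring

theorem ne_zero_of_pow {F : Type} [Field F] {l : F} {d : ℕ} (hd : 0 < d) (h : l ^ d = 1) :
    l ≠ 0 := by
  intro h0
  rw [h0, zero_pow hd.ne'] at h
  exact zero_ne_one h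

/-- the weights `bw` and a vector which vanishes on the free coordinates -/
theorem bw_dot (A : Fin n → ℕ) (m : Fin r → Fin n → ℕ) (J : Finset (Fin n)) (τ : Finset (Fin r))
    (u v : Fin n → ℕ) (hv : ∀ i ∈ free A m J τ, v i = 0) :
    ∑ i, bw A m J τ u i * (v i : ℤ) = ((∑ i, u i * v i : ℕ) : ℤ) := by
  push_cast
  refine Finset.sum_congr rfl fun i _ => ?_
  unfold bw
  split_ifs with h
  · rw [hv i h]; simp
  · rfl

theorem bw_A (A : Fin n → ℕ) (m : Fin r → Fin n → ℕ) (J : Finset (Fin n)) (τ : Finset (Fin r))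
    (u : Fin n → ℕ) :
    ∑ i, bw A m J τ u i * (A i : ℤ) = ((∑ i, u i * A i : ℕ) : ℤ) :=
  bw_dot A m J τ u A fun _ hi => (Finset.mem_filter.mp hi).2.1

theorem bw_m (A : Fin n → ℕ) (m : Fin r → Fin n → ℕ) (J : Finset (Fin n)) (τ : Finset (Fin r))
    (u : Fin n → ℕ) (hu : amin m u = τ) (j : Fin r) (hj : j ∈ τ) :
    ∑ i, bw A m J τ u i * (m j i : ℤ) = (gord m u : ℤ) := by
  rw [bw_dot A m J τ u (m j) fun _ hi => (Finset.mem_filter.mp hi).2.2 j hj]
  rw [← hu] at hj
  exact_mod_cast (Finset.mem_filter.mp hj).2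

theorem gord_le (m : Fin r → Fin n → ℕ) (u : Fin n → ℕ) (j : Fin r) :
    gord m u ≤ ∑ i, u i * m j i := ciInf_le' (fun j => ∑ i, u i * m j i) j

/-- the value of `f` at the base point -/
theorem aeval_sp (A : Fin n → ℕ) (m : Fin r → Fin n → ℕ) (c : Fin r → k) (e : ℕ)
    (x : Pt k (Fin n)) :
    aeval x (sp A m c e) = (∏ i, x i ^ A i) * (∑ j, cb c j * ∏ i, x i ^ m j i) ^ e := by
  simp only [sp, map_mul, map_prod, map_pow, map_sum, aeval_X, algHom_C, cb]

theorem base_zero (A : Fin n → ℕ) (m : Fin r → Fin n → ℕ) (c : Fin r → k) (e : ℕ) (he : 0 < e)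
    (J : Finset (Fin n)) (τ : Finset (Fin r)) (u : Fin n → ℕ) (hJ : Adm J u)
    (hu : amin m u = τ) (x z : Pt k (Fin n)) (hx : ∀ i, x i = if i ∈ J then 0 else z i)
    (h : 0 < ford A m e u ∨ gbar m (cb c) τ z = 0) :
    aeval x (sp A m c e) = 0 := by
  rw [aeval_sp]
  by_cases hA : ∃ i ∈ J, A i ≠ 0
  · obtain ⟨i, hi, hAi⟩ := hA
    rw [Finset.prod_eq_zero (Finset.mem_univ i), zero_mul]
    rw [hx i, if_pos hi, zero_pow hAi]
  · push Not at hA
    have hA0 : ∑ i, u i * A i = 0 := by
      refine Finset.sum_eq_zero fun i _ => ?_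
      by_cases hi : i ∈ J
      · rw [hA i hi, mul_zero]
      · have : u i = 0 := by
          by_contra h1
          exact hi ((hJ i).mp h1)
        rw [this, zero_mul]
    -- the monomials
    have hmon : ∀ j, cb c j * ∏ i, x i ^ m j i =
        if ∑ i, u i * m j i = 0 then cb c j * ∏ i, z i ^ m j i else 0 := by
      intro j
      split_ifs with hj
      · congr 1
        refine Finset.prod_congr rfl fun i _ => ?_
        rw [hx i]
        split_ifs with hi
        · have h1 := (Finset.sum_eq_zero_iff.mp hj) i (Finset.mem_univ i)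
          have h2 : u i ≠ 0 := (hJ i).mpr hi
          have h3 : m j i = 0 := by
            rcases Nat.mul_eq_zero.mp h1 with h4 | h4
            · exact absurd h4 h2
            · exact h4
          rw [h3, pow_zero, pow_zero]
        · rfl
      · have : ∃ i, u i * m j i ≠ 0 := by
          by_contra h1
          push Not at h1
          exact hj (Finset.sum_eq_zero fun i _ => h1 i)
        obtain ⟨i, hi⟩ := this
        have h1 : u i ≠ 0 := fun h0 => hi (by rw [h0, zero_mul])
        have h2 : m j i ≠ 0 := fun h0 => hi (by rw [h0, mul_zero])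
        rw [Finset.prod_eq_zero (Finset.mem_univ i), mul_zero]
        rw [hx i, if_pos ((hJ i).mp h1), zero_pow h2]
    have hsum : ∑ j, cb c j * ∏ i, x i ^ m j i = 0 := by
      rw [Finset.sum_congr rfl fun j _ => hmon j]
      rcases Nat.eq_zero_or_pos (gord m u) with hg | hg
      · have h1 : gbar m (cb c) τ z = 0 := by
          rcases h with h1 | h1
          · exfalso
            unfold ford at h1
            rw [hA0, hg, mul_zero, add_zero] at h1
            exact lt_irrefl _ h1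
          · exact h1
        rw [← Finset.sum_filter]
        rw [← h1]
        unfold gbar
        refine Finset.sum_congr ?_ fun _ _ => rfl
        rw [← hu]
        unfold amin
        rw [hg]
      · refine Finset.sum_eq_zero fun j _ => ?_
        rw [if_neg]
        have := gord_le m u j
        omega
    rw [hsum, zero_pow he.ne', mul_zero]

theorem isPF_prod (A : Fin n → ℕ) {ι : Type} (f : Fin n → ι) :
    IsPF (fun z : Pt k ι => ∏ i, z (f i) ^ A i) :=
  IsPF.prod _ _ fun i _ => (IsPF.coord (f i)).pow (A i)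

theorem isPF_gbar (m : Fin r → Fin n → ℕ) (c : Fin r → k) (τ : Finset (Fin r)) {ι : Type}
    (f : Fin n → ι) : IsPF (fun z : Pt k ι => gbar m (cb c) τ (fun i => z (f i))) := by
  unfold gbar
  exact IsPF.sum _ _ fun j _ => (IsPF.const (c j)).mul (isPF_prod (m j) f)

theorem constr0 (A : Fin n → ℕ) (m : Fin r → Fin n → ℕ) (c : Fin r → k) (e : ℕ)
    (J : Finset (Fin n)) (τ : Finset (Fin r)) : Constr (EB0 A m c e J τ) := by
  unfold EB0
  refine Constr.and (Constr.all fun i => Constr.ne (IsPF.coord i) IsPF.zero) ?_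
  refine Constr.and (Constr.ballFinset _ fun i _ => Constr.eq (IsPF.coord i) IsPF.one) ?_
  exact Constr.eq ((isPF_prod A id).mul ((isPF_gbar m c τ id).pow e)) IsPF.one

theorem constr1 (A : Fin n → ℕ) (m : Fin r → Fin n → ℕ) (c : Fin r → k) (e : ℕ)
    (J : Finset (Fin n)) (τ : Finset (Fin r)) : Constr (EB1 A m c e J τ) := by
  unfold EB1
  refine Constr.and (Constr.all fun i => Constr.ne (IsPF.coord (some i)) IsPF.zero) ?_
  refine Constr.and (Constr.ballFinset _ fun i _ => Constr.eq (IsPF.coord (some i)) IsPF.one) ?_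
  refine Constr.and (Constr.eq (isPF_gbar m c τ some) IsPF.zero) ?_
  exact Constr.eq ((isPF_prod A some).mul ((IsPF.coord none).pow e)) IsPF.one

/-- `EB0` is stable under the action with weights `κ`. -/
theorem stable0 (A : Fin n → ℕ) (m : Fin r → Fin n → ℕ) (c : Fin r → k) (e : ℕ)
    (J : Finset (Fin n)) (τ : Finset (Fin r)) (κ : Fin n → ℤ) (s : AlgebraicClosure k)
    (hs : s ≠ 0) (a g : ℤ) (h0 : ∀ i ∈ free A m J τ, κ i = 0)
    (hA : ∑ i, κ i * (A i : ℤ) = a) (hm : ∀ j ∈ τ, ∑ i, κ i * (m j i : ℤ) = g)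
    (h1 : s ^ (a + e * g) = 1) (z : Pt k (Fin n)) (hz : z ∈ EB0 A m c e J τ) :
    dact κ s z ∈ EB0 A m c e J τ := by
  obtain ⟨hz1, hz2, hz3⟩ := hz
  refine ⟨fun i => mul_ne_zero (zpow_ne_zero _ hs) (hz1 i), fun i hi => ?_, ?_⟩
  · change s ^ κ i * z i = 1
    rw [h0 i hi, zpow_zero, one_mul, hz2 i hi]
  · rw [dact_prod κ s hs z A, dact_gbar κ s hs z m (cb c) τ g hm, hA, mul_pow]
    have e1 : (s ^ g) ^ e = s ^ ((e : ℤ) * g) := by
      rw [mul_comm, zpow_mul, zpow_natCast]
    rw [e1]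
    calc s ^ a * (∏ i, z i ^ A i) * (s ^ ((e : ℤ) * g) * gbar m (cb c) τ z ^ e)
        = (s ^ a * s ^ ((e : ℤ) * g)) * ((∏ i, z i ^ A i) * gbar m (cb c) τ z ^ e) := by ring
      _ = 1 := by rw [← zpow_add₀ hs, h1, hz3, one_mul]

/-- `EB1` is stable under the action with weights `κ`. -/
theorem stable1 (A : Fin n → ℕ) (m : Fin r → Fin n → ℕ) (c : Fin r → k) (e : ℕ)
    (J : Finset (Fin n)) (τ : Finset (Fin r)) (κ : Option (Fin n) → ℤ)
    (s : AlgebraicClosure k)
    (hs : s ≠ 0) (a g : ℤ) (h0 : ∀ i ∈ free A m J τ, κ (some i) = 0)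
    (hA : ∑ i, κ (some i) * (A i : ℤ) = a) (hm : ∀ j ∈ τ, ∑ i, κ (some i) * (m j i : ℤ) = g)
    (h1 : s ^ (a + e * κ none) = 1) (z : Pt k (Option (Fin n))) (hz : z ∈ EB1 A m c e J τ) :
    dact κ s z ∈ EB1 A m c e J τ := by
  obtain ⟨hz1, hz2, hz3, hz4⟩ := hz
  have hd : (fun i => dact κ s z (some i)) = dact (fun i => κ (some i)) s (fun i => z (some i)) :=
    rfl
  refine ⟨fun i => mul_ne_zero (zpow_ne_zero _ hs) (hz1 i), fun i hi => ?_, ?_, ?_⟩
  · change s ^ κ (some i) * z (some i) = 1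
    rw [h0 i hi, zpow_zero, one_mul, hz2 i hi]
  · rw [hd, dact_gbar (fun i => κ (some i)) s hs (fun i => z (some i)) m (cb c) τ g hm, hz3,
      mul_zero]
  · have e0 : ∏ i, dact κ s z (some i) ^ A i = s ^ a * ∏ i, z (some i) ^ A i := by
      have := dact_prod (fun i => κ (some i)) s hs (fun i => z (some i)) A
      rw [hA] at this
      exact this
    have e2 : dact κ s z none ^ e = s ^ ((e : ℤ) * κ none) * z none ^ e := by
      change (s ^ κ none * z none) ^ e = _
      rw [mul_pow]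
      congr 1
      rw [mul_comm, zpow_mul, zpow_natCast]
    rw [e0, e2]
    calc s ^ a * (∏ i, z (some i) ^ A i) * (s ^ ((e : ℤ) * κ none) * z none ^ e)
        = (s ^ a * s ^ ((e : ℤ) * κ none)) * ((∏ i, z (some i) ^ A i) * z none ^ e) := by ring
      _ = 1 := by rw [← zpow_add₀ hs, h1, hz4, one_mul]

theorem bw_free (A : Fin n → ℕ) (m : Fin r → Fin n → ℕ) (J : Finset (Fin n))
    (τ : Finset (Fin r)) (u : Fin n → ℕ) (i : Fin n) (hi : i ∈ free A m J τ) :
    bw A m J τ u i = 0 := if_pos hi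

theorem bw_inv (A : Fin n → ℕ) (m : Fin r → Fin n → ℕ) (J : Finset (Fin n))
    (τ : Finset (Fin r)) (u : Fin n → ℕ) (hJ : Adm J u) (i : Fin n) (hi : i ∉ J) :
    bw A m J τ u i = 0 := by
  unfold bw
  split_ifs
  · rfl
  · have : u i = 0 := by
      by_contra h1
      exact hi ((hJ i).mp h1)
    rw [this]; rfl

theorem valid0 (A : Fin n → ℕ) (m : Fin r → Fin n → ℕ) (c : Fin r → k) (e : ℕ) (he : 0 < e)
    (J : Finset (Fin n)) (τ : Finset (Fin r)) (u : Fin n → ℕ) (hJ : Adm J u)
    (hu : amin m u = τ) (hf : 0 < ford A m e u) :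
    Valid (sp A m c e) (EB0 A m c e J τ) (bw A m J τ u) (ford A m e u) (bb J) where
  constr := constr0 A m c e J τ
  pos := hf
  stable := fun l hl z hz => by
    refine stable0 A m c e J τ (bw A m J τ u) l (ne_zero_of_pow hf hl) _ _
      (bw_free A m J τ u) (bw_A A m J τ u) (bw_m A m J τ u hu) ?_ z hz
    have : (((∑ i, u i * A i : ℕ) : ℤ) + e * (gord m u : ℤ)) = ((ford A m e u : ℕ) : ℤ) := by
      unfold ford
      push_cast
      ring
    rw [this, zpow_natCast, hl]
  base := fun z hz => by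
    refine base_zero A m c e he J τ u hJ hu _ z (fun i => ?_) (Or.inl hf)
    unfold cbase bb
    split_ifs <;> rfl
  inv := fun i j h => by
    unfold bb at h
    split_ifs at h with hi
    rw [Option.some.injEq] at h
    rw [← h]
    exact bw_inv A m J τ u hJ i hi

theorem valid1 (A : Fin n → ℕ) (m : Fin r → Fin n → ℕ) (c : Fin r → k) (e : ℕ) (he : 0 < e)
    (J : Finset (Fin n)) (τ : Finset (Fin r)) (u : Fin n → ℕ) (hJ : Adm J u)
    (hu : amin m u = τ) (l : ℕ) (hl : 1 ≤ l) :
    Valid (sp A m c e) (EB1 A m c e J τ) (bw1 A m J τ u l) (ford A m e u + e * l) (bb1 J) where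
  constr := constr1 A m c e J τ
  pos := by
    have := Nat.mul_pos he hl
    omega
  stable := fun s hs z hz => by
    have hpos : 0 < ford A m e u + e * l := by
      have := Nat.mul_pos he hl
      omega
    refine stable1 A m c e J τ (bw1 A m J τ u l) s (ne_zero_of_pow hpos hs) _ _
      (bw_free A m J τ u) (bw_A A m J τ u) (bw_m A m J τ u hu) ?_ z hz
    have : (((∑ i, u i * A i : ℕ) : ℤ) + e * bw1 A m J τ u l none) =
        ((ford A m e u + e * l : ℕ) : ℤ) := by
      unfold ford bw1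
      push_cast
      ring
    rw [this, zpow_natCast, hs]
  base := fun z hz => by
    refine base_zero A m c e he J τ u hJ hu _ (fun i => z (some i)) (fun i => ?_)
      (Or.inr hz.2.2.1)
    unfold cbase bb1
    split_ifs <;> rfl
  inv := fun i j h => by
    unfold bb1 at h
    split_ifs at h with hi
    rw [Option.some.injEq] at h
    rw [← h]
    exact bw_inv A m J τ u hJ i hi

theorem exists_const {α β : Type} [Inhabited β] (P : α → Prop) (F : α → β)
    (h : ∀ x y, P x → P y → F x = F y) : ∃ b, ∀ x, P x → F x = b := by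
  by_cases hx : ∃ x, P x
  · obtain ⟨x, hx⟩ := hx
    exact ⟨F x, fun y hy => h y x hy hx⟩
  · exact ⟨default, fun y hy => absurd ⟨y, hy⟩ hx⟩

theorem main (h1 : S_ETw) : S_EInd := by
  intro k _ _ n r A m c e R _ M _ _ _ he J τ
  have : Inhabited R := ⟨0⟩
  obtain ⟨b0, hb0⟩ := exists_const (fun u : Fin n → ℕ => Adm J u ∧ amin m u = τ ∧
      0 < ford A m e u)
    (fun u => M.χ _ (EB0 A m c e J τ) (bw A m J τ u) (ford A m e u) (bb J)) (by
      rintro u u' ⟨hJ, hu, hf⟩ ⟨hJ', hu', hf'⟩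
      refine h1 M (EB0 A m c e J τ) _ _ _ _ (bb J) (valid0 A m c e he J τ u hJ hu hf)
        (valid0 A m c e he J τ u' hJ' hu' hf') (fun z hz i _ => hz.1 i) (fun s hs z hz => ?_)
      refine stable0 A m c e J τ _ s hs
        ((ford A m e u' : ℤ) * ((∑ i, u i * A i : ℕ) : ℤ) -
          (ford A m e u : ℤ) * ((∑ i, u' i * A i : ℕ) : ℤ))
        ((ford A m e u' : ℤ) * (gord m u : ℤ) - (ford A m e u : ℤ) * (gord m u' : ℤ))
        (fun i hi => ?_) ?_ (fun j hj => ?_) ?_ z hz
      · simp only [bw_free A m J τ u i hi, bw_free A m J τ u' i hi, mul_zero, sub_zero]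
      · rw [← bw_A A m J τ u, ← bw_A A m J τ u', Finset.mul_sum, Finset.mul_sum,
          ← Finset.sum_sub_distrib]
        refine Finset.sum_congr rfl fun i _ => ?_
        ring
      · rw [← bw_m A m J τ u hu j hj, ← bw_m A m J τ u' hu' j hj, Finset.mul_sum,
          Finset.mul_sum, ← Finset.sum_sub_distrib]
        refine Finset.sum_congr rfl fun i _ => ?_
        ring
      · convert zpow_zero s using 2
        unfold ford
        push_cast
        ring)
  obtain ⟨b1, hb1⟩ := exists_const (fun p : (Fin n → ℕ) × ℕ => Adm J p.1 ∧ amin m p.1 = τ ∧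
      1 ≤ p.2)
    (fun p => M.χ _ (EB1 A m c e J τ) (bw1 A m J τ p.1 p.2) (ford A m e p.1 + e * p.2)
      (bb1 J)) (by
      rintro ⟨u, l⟩ ⟨u', l'⟩ ⟨hJ, hu, hl⟩ ⟨hJ', hu', hl'⟩
      simp only at hJ hu hl hJ' hu' hl' ⊢
      refine h1 M (EB1 A m c e J τ) _ _ _ _ (bb1 J) (valid1 A m c e he J τ u hJ hu l hl)
        (valid1 A m c e he J τ u' hJ' hu' l' hl') (fun z hz i _ => ?_) (fun s hs z hz => ?_)
      · cases i with
        | none =>
          intro h0
          have h2 := hz.2.2.2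
          rw [h0, zero_pow he.ne', mul_zero] at h2
          exact zero_ne_one h2
        | some i => exact hz.1 i
      refine stable1 A m c e J τ _ s hs
        (((ford A m e u' + e * l' : ℕ) : ℤ) * ((∑ i, u i * A i : ℕ) : ℤ) -
          ((ford A m e u + e * l : ℕ) : ℤ) * ((∑ i, u' i * A i : ℕ) : ℤ))
        (((ford A m e u' + e * l' : ℕ) : ℤ) * (gord m u : ℤ) -
          ((ford A m e u + e * l : ℕ) : ℤ) * (gord m u' : ℤ))
        (fun i hi => ?_) ?_ (fun j hj => ?_) ?_ z hz
      · simp only [bw1, bw_free A m J τ u i hi, bw_free A m J τ u' i hi, mul_zero, sub_zero]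
      · rw [← bw_A A m J τ u, ← bw_A A m J τ u', Finset.mul_sum, Finset.mul_sum,
          ← Finset.sum_sub_distrib]
        refine Finset.sum_congr rfl fun i _ => ?_
        simp only [bw1]
        ring
      · rw [← bw_m A m J τ u hu j hj, ← bw_m A m J τ u' hu' j hj, Finset.mul_sum,
          Finset.mul_sum, ← Finset.sum_sub_distrib]
        refine Finset.sum_congr rfl fun i _ => ?_
        simp only [bw1]
        ring
      · convert zpow_zero s using 2
        unfold ford bw1
        push_cast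
        ring)
  exact ⟨b0, b1, fun u hJ hu => ⟨fun hf => hb0 u ⟨hJ, hu, hf⟩,
    fun l hl => hb1 (u, l) ⟨hJ, hu, hl⟩⟩⟩

end Pool.Agent.W605.MEInd
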